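import Mathlib
import Pool.Agent.W_MP_bec7e1_h80.OddMain
import Pool.Agent.W_MP_bec7e1_h80.Dihedral

/-!
# `G_p = C_{p²} ⋊ C_p` is rigid over a field containing a primitive `p²`-th root of unity
-/

namespace Pool.Agent.Results.MP_bec7e1_al.AllPrimes

open W_bec7e1 OddGp

/-- For every prime `p` and every field `C₀` of characteristic zero containing a primitive `p²`-th
root of unity `ζ` there is an extension field `F` of `C₀` over which
`G_p = ⟨x, y | x^(p²) = y^p = 1, y x y⁻¹ = x^(p+1)⟩` is rigid. -/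
theorem result (p : ℕ) (hp : p.Prime) (C₀ : Type) [Field C₀] [CharZero C₀] (ζ : C₀)
    (hζ : IsPrimitiveRoot ζ (p ^ 2)) :
    ∃ (F : Type) (_ : Field F) (_ : Algebra C₀ F),
      IsPrimitiveRoot (algebraMap C₀ F ζ) (p ^ 2) ∧ IsRigid F (Gp p) := by
  by_cases h : p = 2
  · subst h
    exact rigid_two C₀ ζ hζ
  · exact rigid_odd p hp h C₀ ζ hζ

end Pool.Agent.Results.MP_bec7e1_al.AllPrimes
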